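import Mathlib

set_option autoImplicit false

/-!
# Compact groups with an adjoint representation

An axiomatic setting for compact Lie groups, and the construction of a proper closed subgroup
which meets every conjugacy class.
-/

open Filter Topology Set
open scoped RealInnerProductSpace

namespace Pool.Agent.H858T

/-- A topological group `Γ` with a Lie algebra `V` carrying an invariant inner product. -/
structure AdData (Γ : Type*) [Group Γ] [TopologicalSpace Γ] (V : Type*) [NormedAddCommGroup V]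
    [InnerProductSpace ℝ V] where
  /-- adjoint representation -/
  Ad : Γ → V →ₗ[ℝ] V
  /-- exponential map -/
  ex : V → Γ
  /-- bracket -/
  br : V →ₗ[ℝ] V →ₗ[ℝ] V
  Ad_one : ∀ v, Ad 1 v = v
  Ad_mul : ∀ g h v, Ad (g * h) v = Ad g (Ad h v)
  Ad_cont : Continuous fun p : Γ × V => Ad p.1 p.2
  Ad_inner : ∀ g v w, ⟪Ad g v, Ad g w⟫ = ⟪v, w⟫
  Ad_br : ∀ g v w, Ad g (br v w) = br (Ad g v) (Ad g w)
  br_self : ∀ v, br v v = 0
  jacobi : ∀ x y z, br x (br y z) = br (br x y) z + br y (br x z)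
  br_inner : ∀ x y z, ⟪br x y, z⟫ = ⟪x, br y z⟫
  ex_add : ∀ (s t : ℝ) v, ex ((s + t) • v) = ex (s • v) * ex (t • v)
  ex_cont : Continuous ex
  conj_ex : ∀ g v, g * ex v * g⁻¹ = ex (Ad g v)
  hderiv : ∀ z y, HasDerivAt (fun t : ℝ => Ad (ex (t • z)) y) (br z y) 0
  locsurj : ∀ c : Γ, ∀ᶠ γ in 𝓝 (1 : Γ), ∃ w z, Ad c z = z ∧
    γ = ex (Ad c⁻¹ w) * ex z * ex (-w)

namespace AdData

variable {Γ : Type*} [Group Γ] [TopologicalSpace Γ] {V : Type*} [NormedAddCommGroup V]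
  [InnerProductSpace ℝ V] (D : AdData Γ V)

include D

lemma br_anti (x y : V) : D.br x y = - D.br y x := by
  have h := D.br_self (x + y)
  simp only [map_add, LinearMap.add_apply, D.br_self, zero_add, add_zero] at h
  exact eq_neg_of_add_eq_zero_right h

lemma br_skew (x y z : V) : ⟪D.br x y, z⟫ = - ⟪y, D.br x z⟫ := by
  rw [D.br_anti x y, inner_neg_left, D.br_inner]

lemma ex_zero : D.ex 0 = 1 := by
  have h := D.ex_add 0 0 (0 : V)
  simp only [smul_zero] at h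
  exact (mul_eq_left (a := D.ex 0)).1 h.symm

lemma ex_neg (v : V) : D.ex (-v) = (D.ex v)⁻¹ := by
  have h := D.ex_add (-1) 1 v
  rw [neg_add_cancel, zero_smul, D.ex_zero, one_smul, neg_one_smul] at h
  exact eq_inv_of_mul_eq_one_left h.symm

lemma Ad_inv_Ad (g : Γ) (v : V) : D.Ad g⁻¹ (D.Ad g v) = v := by
  rw [← D.Ad_mul, inv_mul_cancel, D.Ad_one]

lemma Ad_Ad_inv (g : Γ) (v : V) : D.Ad g (D.Ad g⁻¹ v) = v := by
  rw [← D.Ad_mul, mul_inv_cancel, D.Ad_one]

lemma Ad_norm (g : Γ) (v : V) : ‖D.Ad g v‖ = ‖v‖ := by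
  have h := D.Ad_inner g v v
  rw [real_inner_self_eq_norm_sq, real_inner_self_eq_norm_sq] at h
  exact (sq_eq_sq₀ (norm_nonneg _) (norm_nonneg _)).1 h

lemma Ad_cont_left (v : V) : Continuous fun g : Γ => D.Ad g v :=
  D.Ad_cont.comp (continuous_id.prodMk continuous_const)

lemma Ad_cont_right (g : Γ) : Continuous (D.Ad g) :=
  D.Ad_cont.comp (continuous_const.prodMk continuous_id)

lemma deriv_at (z y : V) (t : ℝ) :
    HasDerivAt (fun s : ℝ => D.Ad (D.ex (s • z)) y) (D.Ad (D.ex (t • z)) (D.br z y)) t := by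
  have h1 : HasDerivAt (fun s : ℝ => D.Ad (D.ex ((s - t) • z)) y) (D.br z y) t := by
    have h2 := D.hderiv z y
    have h3 : HasDerivAt (fun s : ℝ => s - t) 1 t := (hasDerivAt_id t).sub_const t
    have h4 : HasDerivAt (fun s : ℝ => D.Ad (D.ex (s • z)) y) (D.br z y) (t - t) := by
      rw [sub_self]; exact h2
    have h5 : HasDerivAt ((fun s : ℝ => D.Ad (D.ex (s • z)) y) ∘ fun s : ℝ => s - t)
        ((1 : ℝ) • D.br z y) t := HasDerivAt.scomp (h := fun s : ℝ => s - t) t h4 h3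
    rw [one_smul] at h5
    exact h5
  have h6 : (fun s : ℝ => D.Ad (D.ex (s • z)) y) =
      fun s : ℝ => D.Ad (D.ex (t • z)) (D.Ad (D.ex ((s - t) • z)) y) := by
    funext s
    rw [← D.Ad_mul, ← D.ex_add, add_sub_cancel]
  rw [h6]
  let T : V →L[ℝ] V := ⟨D.Ad (D.ex (t • z)), D.Ad_cont_right _⟩
  exact T.hasFDerivAt.comp_hasDerivAt t h1

lemma fix_of_br {z y : V} (h : D.br z y = 0) : D.Ad (D.ex z) y = y := by
  have h1 : ∀ t : ℝ, HasDerivAt (fun s : ℝ => D.Ad (D.ex (s • z)) y) 0 t := by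
    intro t
    have := D.deriv_at z y t
    rwa [h, map_zero] at this
  have h2 := is_const_of_deriv_eq_zero (fun t => (h1 t).differentiableAt)
    (fun t => (h1 t).deriv) 1 0
  simpa [D.ex_zero, D.Ad_one] using h2

lemma inner_deriv_at (z y x : V) (t : ℝ) :
    HasDerivAt (fun s : ℝ => ⟪D.Ad (D.ex (s • z)) y, x⟫) ⟪D.Ad (D.ex (t • z)) (D.br z y), x⟫ t := by
  have h1 := (D.deriv_at z y t).inner ℝ (hasDerivAt_const t x)
  simpa using h1

/-- first-order condition at a maximum -/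
lemma first_order {z y x : V} (h : ∀ t : ℝ, ⟪D.Ad (D.ex (t • z)) y, x⟫ ≤ ⟪y, x⟫) :
    ⟪D.br z y, x⟫ = 0 := by
  have h1 := D.inner_deriv_at z y x 0
  have h2 : IsLocalMax (fun s : ℝ => ⟪D.Ad (D.ex (s • z)) y, x⟫) 0 := by
    refine Eventually.of_forall fun t => ?_
    simpa [D.ex_zero, D.Ad_one] using h t
  have h3 := h2.hasDerivAt_eq_zero h1
  simpa [D.ex_zero, D.Ad_one] using h3

/-- second-order condition at a maximum -/
lemma second_order {z y x : V} (h : ∀ t : ℝ, ⟪D.Ad (D.ex (t • z)) y, x⟫ ≤ ⟪y, x⟫) :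
    ⟪D.br z (D.br z y), x⟫ ≤ 0 := by
  by_contra hcon
  push Not at hcon
  set f : ℝ → ℝ := fun s : ℝ => ⟪D.Ad (D.ex (s • z)) y, x⟫ with hf
  have hd1 : deriv f = fun t => ⟪D.Ad (D.ex (t • z)) (D.br z y), x⟫ := by
    funext t
    exact (D.inner_deriv_at z y x t).deriv
  have hd2 : deriv (deriv f) 0 = ⟪D.br z (D.br z y), x⟫ := by
    rw [hd1, (D.inner_deriv_at z (D.br z y) x 0).deriv]
    simp [D.ex_zero, D.Ad_one]
  have h0 : deriv f 0 = 0 := by
    rw [hd1]
    simpa [D.ex_zero, D.Ad_one] using D.first_order h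
  have hmin : IsLocalMin f 0 := isLocalMin_of_deriv_deriv_pos (by rw [hd2]; exact hcon) h0
    (D.inner_deriv_at z y x 0).continuousAt
  have hconst : ∀ᶠ t in 𝓝 (0 : ℝ), f t = f 0 := by
    filter_upwards [hmin] with t ht
    refine le_antisymm ?_ ht
    simpa [hf, D.ex_zero, D.Ad_one] using h t
  have hd3 : deriv f =ᶠ[𝓝 0] fun _ => 0 := by
    have : f =ᶠ[𝓝 0] fun _ => f 0 := hconst
    have h4 := this.deriv
    filter_upwards [h4] with t ht
    rw [ht]; simp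
  have h5 : deriv (deriv f) 0 = 0 := by
    rw [hd3.deriv_eq]; simp
  rw [hd2] at h5
  exact hcon.ne' h5

/-- the elements which fix a conjugate of `X` -/
def Cset (X : V) : Set Γ := {g | ∃ h, D.Ad g (D.Ad h X) = D.Ad h X}

variable [IsTopologicalGroup Γ] [CompactSpace Γ] [T2Space Γ]

omit [IsTopologicalGroup Γ] in
lemma isClosed_Cset (X : V) : IsClosed (D.Cset X) := by
  have h1 : IsClosed {p : Γ × Γ | D.Ad p.1 (D.Ad p.2 X) = D.Ad p.2 X} := by
    refine isClosed_eq ?_ ?_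
    · exact D.Ad_cont.comp (continuous_fst.prodMk ((D.Ad_cont_left X).comp continuous_snd))
    · exact (D.Ad_cont_left X).comp continuous_snd
  have h2 : D.Cset X = Prod.fst '' {p : Γ × Γ | D.Ad p.1 (D.Ad p.2 X) = D.Ad p.2 X} := by
    ext g
    constructor
    · rintro ⟨h, hh⟩
      exact ⟨(g, h), hh, rfl⟩
    · rintro ⟨⟨g', h⟩, hh, rfl⟩
      exact ⟨h, hh⟩
  rw [h2]
  exact (h1.isCompact.image continuous_fst).isClosed

/-- the key variational step: if `c` fixes `Y` and `Z`, then `c * exp Z` fixes a conjugate of `Y` -/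
lemma exists_fix {c : Γ} {Y Z : V} (hY : D.Ad c Y = Y) (hZ : D.Ad c Z = Z) :
    ∃ k, D.Ad (c * D.ex Z) (D.Ad k Y) = D.Ad k Y := by
  have hcomp : IsCompact {k : Γ | k * c = c * k} :=
    (isClosed_eq (continuous_id.mul continuous_const)
      (continuous_const.mul continuous_id)).isCompact
  obtain ⟨k, hk, hmax⟩ := hcomp.exists_isMaxOn (f := fun k => ⟪D.Ad k Z, Y⟫) ⟨1, by simp⟩
    (((D.Ad_cont_left Z).inner continuous_const).continuousOn)
  have hk' : k * c = c * k := hk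
  set Z' := D.Ad k Z with hZ'
  have hcZ' : D.Ad c Z' = Z' := by
    rw [hZ', ← D.Ad_mul, ← hk', D.Ad_mul, hZ]
  have hcommex : ∀ w, D.Ad c w = w → ∀ t : ℝ, D.ex (t • w) * c = c * D.ex (t • w) := by
    intro w hw t
    have h1 := D.conj_ex c (t • w)
    rw [map_smul, hw] at h1
    exact (mul_inv_eq_iff_eq_mul.1 h1).symm
  have hort : ∀ w, D.Ad c w = w → ⟪w, D.br Z' Y⟫ = 0 := by
    intro w hw
    rw [← D.br_inner]
    refine D.first_order fun t => ?_
    have h2 : D.ex (t • w) * k ∈ {k : Γ | k * c = c * k} := by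
      show D.ex (t • w) * k * c = c * (D.ex (t • w) * k)
      rw [mul_assoc, hk', ← mul_assoc, hcommex w hw t, mul_assoc]
    have h3 : ⟪D.Ad (D.ex (t • w) * k) Z, Y⟫ ≤ ⟪D.Ad k Z, Y⟫ := hmax h2
    rwa [D.Ad_mul] at h3
  have hbr : D.br Z' Y = 0 := by
    have h1 := hort (D.br Z' Y) (by rw [D.Ad_br, hcZ', hY])
    exact inner_self_eq_zero.1 h1
  have hfix : D.Ad (D.ex Z') Y = Y := D.fix_of_br hbr
  refine ⟨k⁻¹, ?_⟩
  have h1 : c * D.ex Z = k⁻¹ * (c * D.ex Z') * k := by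
    have h2 := D.conj_ex k Z
    rw [← hZ'] at h2
    rw [← h2]
    have h3 : k⁻¹ * c = c * k⁻¹ := by
      have : c = k * c * k⁻¹ := by rw [hk']; group
      calc k⁻¹ * c = k⁻¹ * (k * c * k⁻¹) := by rw [← this]
        _ = c * k⁻¹ := by group
    calc c * D.ex Z = (c * k⁻¹) * (k * D.ex Z * k⁻¹) * k := by group
      _ = (k⁻¹ * c) * (k * D.ex Z * k⁻¹) * k := by rw [h3]
      _ = _ := by group
  rw [h1, D.Ad_mul, D.Ad_mul, D.Ad_Ad_inv, D.Ad_mul, hfix, hY]

lemma isOpen_Cset (X : V) : IsOpen (D.Cset X) := by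
  rw [isOpen_iff_mem_nhds]
  rintro c ⟨h₀, hc⟩
  have h1 := D.locsurj c
  have h2 : Tendsto (fun g : Γ => c⁻¹ * g) (𝓝 c) (𝓝 1) := by
    have : Continuous fun g : Γ => c⁻¹ * g := continuous_const.mul continuous_id
    exact this.tendsto' c 1 (by simp)
  filter_upwards [h2.eventually h1] with g hg
  obtain ⟨w, z, hz, hγ⟩ := hg
  obtain ⟨k, hk⟩ := D.exists_fix hc hz
  have h3 : g = D.ex w * (c * D.ex z) * (D.ex w)⁻¹ := by
    have h4 : g = c * (c⁻¹ * g) := by group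
    rw [h4, hγ, D.ex_neg]
    have h5 := D.conj_ex c (D.Ad c⁻¹ w)
    rw [D.Ad_Ad_inv] at h5
    rw [← h5]; group
  refine ⟨D.ex w * k * h₀, ?_⟩
  rw [h3, D.Ad_mul, D.Ad_mul (D.ex w * k), D.Ad_mul (D.ex w) k, D.Ad_inv_Ad, D.Ad_mul (D.ex w), hk]

end AdData

end Pool.Agent.H858T
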