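import Pool.Agent.H858T.Abs

set_option autoImplicit false

/-!
# Compact groups with an adjoint representation, part 2
-/

open Filter Topology Set
open scoped RealInnerProductSpace

namespace Pool.Agent.H858T

/-- product of commuting positive symmetric maps -/
lemma psd_mul {V : Type*} [NormedAddCommGroup V] [InnerProductSpace ℝ V] [FiniteDimensional ℝ V]
    (P Q : V →ₗ[ℝ] V) (hP0 : ∀ v, 0 ≤ ⟪P v, v⟫)
    (hQ : Q.IsSymmetric) (hQ0 : ∀ v, 0 ≤ ⟪Q v, v⟫)
    (hc : ∀ v, P (Q v) = Q (P v)) (v : V) : 0 ≤ ⟪P (Q v), v⟫ := by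
  let b := hQ.eigenvectorBasis (rfl : Module.finrank ℝ V = Module.finrank ℝ V)
  let μ := hQ.eigenvalues (rfl : Module.finrank ℝ V = Module.finrank ℝ V)
  have hQb : ∀ i, Q (b i) = μ i • b i := fun i => by
    exact hQ.apply_eigenvectorBasis rfl i
  have hbb : ∀ i, ⟪b i, b i⟫ = 1 := fun i => by
    rw [real_inner_self_eq_norm_sq, b.orthonormal.1 i, one_pow]
  have hμ : ∀ i, 0 ≤ μ i := fun i => by
    have h1 := hQ0 (b i)
    rw [hQb, inner_smul_left, hbb, mul_one] at h1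
    simpa using h1
  have hoff : ∀ i j, μ i * ⟪P (b i), b j⟫ = μ j * ⟪P (b i), b j⟫ := by
    intro i j
    have h1 : ⟪P (Q (b i)), b j⟫ = μ i * ⟪P (b i), b j⟫ := by
      rw [hQb, map_smul, inner_smul_left]; simp
    have h2 : ⟪Q (P (b i)), b j⟫ = μ j * ⟪P (b i), b j⟫ := by
      rw [hQ, hQb, inner_smul_right]
    rw [← h1, hc, h2]
  have hterm : ∀ i j, μ i * ⟪P (b i), b j⟫ = Real.sqrt (μ i) * Real.sqrt (μ j) * ⟪P (b i), b j⟫ := by
    intro i j
    by_cases h : ⟪P (b i), b j⟫ = 0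
    · rw [h]; ring
    · have h1 : μ i = μ j := mul_right_cancel₀ h (hoff i j)
      rw [← h1, Real.mul_self_sqrt (hμ i)]
  set c : _ → ℝ := fun i => ⟪b i, v⟫ with hcdef
  have hv : v = ∑ i, c i • b i := (b.sum_repr' v).symm
  set w : V := ∑ i, (Real.sqrt (μ i) * c i) • b i with hw
  have h1 : ⟪P (Q v), v⟫ = ∑ i, ∑ j, c i * c j * (μ i * ⟪P (b i), b j⟫) := by
    have h2 : P (Q v) = ∑ i, (c i * μ i) • P (b i) := by
      conv_lhs => rw [hv]
      simp only [map_sum, map_smul, hQb, smul_smul]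
    rw [h2]
    conv_lhs => rw [hv]
    rw [sum_inner]
    refine Finset.sum_congr rfl fun i _ => ?_
    rw [inner_sum]
    refine Finset.sum_congr rfl fun j _ => ?_
    rw [inner_smul_left, inner_smul_right]
    simp only [conj_trivial]
    ring
  have h2 : ⟪P w, w⟫ = ∑ i, ∑ j, c i * c j * (μ i * ⟪P (b i), b j⟫) := by
    have h3 : P w = ∑ i, (Real.sqrt (μ i) * c i) • P (b i) := by
      rw [hw]
      simp only [map_sum, map_smul]
    rw [h3, hw, sum_inner]
    refine Finset.sum_congr rfl fun i _ => ?_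
    rw [inner_sum]
    refine Finset.sum_congr rfl fun j _ => ?_
    rw [inner_smul_left, inner_smul_right, hterm]
    simp only [conj_trivial]
    ring
  rw [h1, ← h2]
  exact hP0 w

namespace AdData

variable {Γ : Type*} [Group Γ] [TopologicalSpace Γ] {V : Type*} [NormedAddCommGroup V]
  [InnerProductSpace ℝ V] (D : AdData Γ V)

include D

/-- regular elements: those with an abelian centralizer -/
def Reg (x : V) : Prop := ∀ y z, D.br x y = 0 → D.br x z = 0 → D.br y z = 0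

/-- commuting elements in a common closed chamber -/
def R (x y : V) : Prop := D.br x y = 0 ∧ ∀ z, 0 ≤ ⟪D.br x z, D.br y z⟫

lemma Reg_Ad {x : V} (h : D.Reg x) (g : Γ) : D.Reg (D.Ad g x) := by
  intro y z hy hz
  have h1 : ∀ u, D.br (D.Ad g x) u = D.Ad g (D.br x (D.Ad g⁻¹ u)) := by
    intro u
    rw [D.Ad_br, D.Ad_Ad_inv]
  have h2 : ∀ u, D.br (D.Ad g x) u = 0 → D.br x (D.Ad g⁻¹ u) = 0 := by
    intro u hu
    rw [h1] at hu
    have := congrArg (D.Ad g⁻¹) hu
    rwa [D.Ad_inv_Ad, map_zero] at this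
  have h3 := h _ _ (h2 y hy) (h2 z hz)
  rw [← D.Ad_br] at h3
  have := congrArg (D.Ad g) h3
  rwa [D.Ad_Ad_inv, map_zero] at this

lemma R_symm {x y : V} (h : D.R x y) : D.R y x :=
  ⟨by rw [D.br_anti, h.1, neg_zero], fun z => by rw [real_inner_comm]; exact h.2 z⟩

lemma R_Ad {x y : V} (h : D.R x y) (g : Γ) : D.R (D.Ad g x) (D.Ad g y) := by
  refine ⟨by rw [← D.Ad_br, h.1, map_zero], fun z => ?_⟩
  have h1 : ∀ u, D.br (D.Ad g u) z = D.Ad g (D.br u (D.Ad g⁻¹ z)) := by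
    intro u
    rw [D.Ad_br, D.Ad_Ad_inv]
  rw [h1, h1, D.Ad_inner]
  exact h.2 _

lemma R_refl (x : V) : D.R x x := ⟨D.br_self x, fun _ => real_inner_self_nonneg⟩

lemma br_comm_of {x y : V} (h : D.br x y = 0) (z : V) : D.br x (D.br y z) = D.br y (D.br x z) := by
  rw [D.jacobi, h]
  simp

lemma R_trans [FiniteDimensional ℝ V] {x y z : V} (hy : D.Reg y) (h1 : D.R x y) (h2 : D.R y z) :
    D.R x z := by
  have hxz : D.br x z = 0 := hy x z (by rw [D.br_anti, h1.1, neg_zero]) h2.1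
  refine ⟨hxz, fun v => ?_⟩
  obtain ⟨a, ha, T, hT, rfl⟩ :=
    (LinearMap.range (D.br y)).exists_add_mem_mem_orthogonal v
  obtain ⟨w, rfl⟩ := ha
  have hBT : D.br y T = 0 := by
    refine inner_self_eq_zero (𝕜 := ℝ).1 ?_
    rw [D.br_skew]
    have h3 := (Submodule.mem_orthogonal' _ _).1 hT (D.br y (D.br y T)) ⟨_, rfl⟩
    rw [h3, neg_zero]
  have hxT : D.br x T = 0 := hy x T (by rw [D.br_anti, h1.1, neg_zero]) hBT
  have hzT : D.br z T = 0 := hy z T h2.1 hBT
  rw [map_add, map_add, hxT, hzT, add_zero, add_zero]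
  -- the two operators
  let P : V →ₗ[ℝ] V := -(D.br y ∘ₗ D.br z)
  let Q : V →ₗ[ℝ] V := -(D.br x ∘ₗ D.br y)
  have cxy := D.br_comm_of h1.1
  have cyz := D.br_comm_of h2.1
  have cxz := D.br_comm_of hxz
  have hP : ∀ u, P u = - D.br y (D.br z u) := fun u => rfl
  have hQ : ∀ u, Q u = - D.br x (D.br y u) := fun u => rfl
  have hQs : Q.IsSymmetric := by
    intro u u'
    rw [hQ, hQ, inner_neg_left, inner_neg_right, D.br_skew, D.br_skew, neg_neg, ← cxy]
  have hP0 : ∀ u, 0 ≤ ⟪P u, u⟫ := by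
    intro u
    rw [hP, inner_neg_left, D.br_skew, neg_neg, real_inner_comm]
    exact h2.2 u
  have hQ0 : ∀ u, 0 ≤ ⟪Q u, u⟫ := by
    intro u
    rw [hQ, inner_neg_left, D.br_skew, neg_neg, real_inner_comm]
    exact h1.2 u
  have hcomm : ∀ u, P (Q u) = Q (P u) := by
    intro u
    rw [hP, hQ, hQ, hP]
    simp only [map_neg, neg_neg]
    rw [← cxz, ← cxy, ← cyz u]
  have h3 := psd_mul P Q hP0 hQs hQ0 hcomm w
  have h4 : ⟪P (Q w), w⟫ = ⟪D.br x (D.br y w), D.br z (D.br y w)⟫ := by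
    rw [hP, hQ]
    simp only [map_neg, neg_neg]
    rw [D.br_skew, D.br_skew, neg_neg]
  rw [h4] at h3
  exact h3

lemma exists_regular [FiniteDimensional ℝ V] : ∃ x, D.Reg x := by
  obtain ⟨x, hx⟩ : ∃ x : V, ∀ y : V, Module.finrank ℝ (LinearMap.ker (D.br x)) ≤
      Module.finrank ℝ (LinearMap.ker (D.br y)) := by
    have h := WellFounded.has_min (r := fun a b : ℕ => a < b) wellFounded_lt
      (Set.range fun x : V => Module.finrank ℝ (LinearMap.ker (D.br x))) ⟨_, 0, rfl⟩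
    obtain ⟨m, ⟨x, rfl⟩, hm⟩ := h
    exact ⟨x, fun y => not_lt.1 (hm _ ⟨y, rfl⟩)⟩
  refine ⟨x, fun y z hy hz => ?_⟩
  by_contra hyz
  set K := LinearMap.ker (D.br x) with hK
  have hmK : ∀ v, v ∈ K ↔ D.br x v = 0 := fun v => LinearMap.mem_ker
  have hyK : ∀ k ∈ K, D.br y k ∈ K := by
    intro k hk
    rw [hmK] at hk ⊢
    rw [D.br_comm_of hy, hk, map_zero]
  have hxo : ∀ u, D.br x u ∈ Kᗮ := by
    intro u
    rw [Submodule.mem_orthogonal]
    intro k hk
    rw [real_inner_comm, D.br_skew, (hmK k).1 hk, inner_zero_right, neg_zero]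
  have hyo : ∀ u ∈ Kᗮ, D.br y u ∈ Kᗮ := by
    intro u hu
    rw [Submodule.mem_orthogonal]
    intro k hk
    rw [real_inner_comm, D.br_skew, (Submodule.mem_orthogonal' _ _).1 hu _ (hyK k hk), neg_zero]
  obtain ⟨C, hC, hanti⟩ := LinearMap.exists_antilipschitzWith ((D.br x).domRestrict Kᗮ) (by
    rw [LinearMap.ker_eq_bot']
    intro u hu
    have h1 : D.br x (u : V) = 0 := hu
    have h2 : (u : V) ∈ K := (hmK _).2 h1
    have h3 : (u : V) = 0 := by
      have := (Submodule.mem_orthogonal _ _).1 u.2 _ h2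
      exact inner_self_eq_zero.1 this
    exact Subtype.ext h3)
  have hanti' : ∀ u ∈ Kᗮ, ‖u‖ ≤ C * ‖D.br x u‖ := by
    intro u hu
    have h1 := hanti.le_mul_dist (⟨u, hu⟩ : Kᗮ) 0
    rw [dist_zero_right, map_zero, dist_zero_right] at h1
    exact h1
  let B : V →L[ℝ] V := LinearMap.toContinuousLinearMap (D.br y)
  have hB : ∀ u, ‖D.br y u‖ ≤ ‖B‖ * ‖u‖ := fun u => B.le_opNorm u
  have hC' : (0 : ℝ) < C := hC
  set ε : ℝ := 1 / (2 * (C * (‖B‖ + 1))) with hε
  have hεpos : 0 < ε := by positivity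
  have hεs : C * (ε * (‖B‖ + 1)) = 1 / 2 := by
    rw [hε]; field_simp
  have hle : LinearMap.ker (D.br (x + ε • y)) ≤ K := by
    intro v hv
    rw [LinearMap.mem_ker] at hv
    obtain ⟨k, hk, u, hu, rfl⟩ := K.exists_add_mem_mem_orthogonal v
    have h1 : D.br x u + ε • D.br y u + ε • D.br y k = 0 := by
      have h2 := hv
      simp only [map_add, LinearMap.add_apply, map_smul, LinearMap.smul_apply, (hmK k).1 hk,
        zero_add] at h2
      rw [← h2]; abel
    have h2 : D.br x u + ε • D.br y u ∈ Kᗮ := Kᗮ.add_mem (hxo u) (Kᗮ.smul_mem _ (hyo u hu))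
    have h3 : ε • D.br y k ∈ K := K.smul_mem _ (hyK k hk)
    have h4 : D.br x u + ε • D.br y u = 0 := by
      have h5 : D.br x u + ε • D.br y u = - (ε • D.br y k) := eq_neg_of_add_eq_zero_left h1
      have h6 : D.br x u + ε • D.br y u ∈ K := by rw [h5]; exact K.neg_mem h3
      exact inner_self_eq_zero.1 ((Submodule.mem_orthogonal _ _).1 h2 _ h6)
    have h5 : D.br x u = -(ε • D.br y u) := eq_neg_of_add_eq_zero_left h4
    have h6 : ‖D.br x u‖ ≤ ε * (‖B‖ * ‖u‖) := by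
      rw [h5, norm_neg, norm_smul, Real.norm_of_nonneg hεpos.le]
      exact mul_le_mul_of_nonneg_left (hB u) hεpos.le
    have h7 := hanti' u hu
    have h8 : ‖u‖ ≤ C * (ε * (‖B‖ * ‖u‖)) := h7.trans (mul_le_mul_of_nonneg_left h6 hC'.le)
    have h9 : C * (ε * (‖B‖ * ‖u‖)) ≤ 1 / 2 * ‖u‖ := by
      rw [← hεs]
      have : 0 ≤ C * ε * ‖u‖ := by positivity
      nlinarith
    have h10 : ‖u‖ = 0 := by
      have := norm_nonneg u
      linarith
    rw [norm_eq_zero] at h10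
    rw [h10, add_zero]
    exact hk
  have hlt : LinearMap.ker (D.br (x + ε • y)) < K := by
    refine lt_of_le_of_ne hle fun heq => ?_
    have hzK : z ∈ LinearMap.ker (D.br (x + ε • y)) := by rw [heq]; exact (hmK z).2 hz
    rw [LinearMap.mem_ker] at hzK
    simp only [map_add, LinearMap.add_apply, map_smul, LinearMap.smul_apply, hz, zero_add] at hzK
    exact hyz ((smul_eq_zero.1 hzK).resolve_left hεpos.ne')
  have h1 := Submodule.finrank_lt_finrank_of_lt hlt
  exact absurd (hx (x + ε • y)) (not_le.2 h1)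

end AdData

end Pool.Agent.H858T
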