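import Pool.Agent.H858T.Abs2

set_option autoImplicit false

/-!
# Compact groups with an adjoint representation, part 3
-/

open Filter Topology Set
open scoped RealInnerProductSpace

namespace Pool.Agent.H858T

namespace AdData

variable {Γ : Type*} [Group Γ] [TopologicalSpace Γ] {V : Type*} [NormedAddCommGroup V]
  [InnerProductSpace ℝ V] (D : AdData Γ V)

include D

lemma br_cont_left [FiniteDimensional ℝ V] (z : V) : Continuous fun x => D.br x z :=
  LinearMap.continuous_of_finiteDimensional (D.br.flip z)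

/-- every component contains an element which keeps a regular element in its chamber -/
lemma exists_chamber [CompactSpace Γ] [IsTopologicalGroup Γ] {x : V} (g : Γ) :
    ∃ n ∈ connectedComponent g, D.R (D.Ad n x) x := by
  have hcomp : IsCompact (connectedComponent g) := isClosed_connectedComponent.isCompact
  obtain ⟨n, hn, hmax⟩ := hcomp.exists_isMaxOn (f := fun n => ⟪D.Ad n x, x⟫)
    ⟨g, mem_connectedComponent⟩ (((D.Ad_cont_left x).inner continuous_const).continuousOn)
  have hpath : ∀ (z : V) (t : ℝ), D.ex (t • z) * n ∈ connectedComponent g := by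
    intro z t
    have h1 : IsPreconnected (Set.range fun t : ℝ => D.ex (t • z) * n) := by
      rw [← Set.image_univ]
      refine isPreconnected_univ.image _ (Continuous.continuousOn ?_)
      exact (D.ex_cont.comp (continuous_id.smul continuous_const)).mul continuous_const
    have h2 : n ∈ Set.range fun t : ℝ => D.ex (t • z) * n :=
      ⟨0, by simp [D.ex_zero]⟩
    have h3 := h1.subset_connectedComponent h2 ⟨t, rfl⟩
    rwa [connectedComponent_eq hn]
  have hm : ∀ (z : V) (t : ℝ), ⟪D.Ad (D.ex (t • z)) (D.Ad n x), x⟫ ≤ ⟪D.Ad n x, x⟫ := by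
    intro z t
    have h1 : ⟪D.Ad (D.ex (t • z) * n) x, x⟫ ≤ ⟪D.Ad n x, x⟫ := hmax (hpath z t)
    rwa [D.Ad_mul] at h1
  refine ⟨n, hn, ?_, fun z => ?_⟩
  · refine inner_self_eq_zero (𝕜 := ℝ).1 ?_
    rw [← D.br_inner]
    exact D.first_order (hm _)
  · have h1 := D.second_order (hm z)
    rw [D.br_skew, neg_nonpos] at h1
    rw [D.br_anti (D.Ad n x) z, D.br_anti x z, inner_neg_neg]
    exact h1

/-- the points of the orbit of a regular element in its closed chamber are in the open one -/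
lemma R_pos {x y : V} (hx : D.Reg x) (hy : D.Reg y) (h : D.R y x) {z : V} (hz : D.br x z ≠ 0) :
    0 < ⟪D.br y z, D.br x z⟫ := by
  refine lt_of_le_of_ne (h.2 z) fun h0 => hz ?_
  -- `S = - ad x ad y` is symmetric and positive, so it kills `z`
  have cxy := D.br_comm_of h.1
  have hSz : D.br x (D.br y z) = 0 := by
    by_contra hne
    set s := D.br x (D.br y z) with hs
    -- test with z + t s
    have key : ∀ t : ℝ, 0 ≤ - 2 * t * ⟪s, s⟫ + t ^ 2 * ⟪D.br y s, D.br x s⟫ := by
      intro t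
      have h1 := h.2 (z + t • s)
      have e1 : ⟪D.br y z, D.br x s⟫ = - ⟪s, s⟫ := by
        rw [real_inner_comm, D.br_skew, ← hs]
      have e2 : ⟪D.br y s, D.br x z⟫ = - ⟪s, s⟫ := by
        rw [D.br_skew, cxy]
      simp only [map_add, map_smul, inner_add_left, inner_add_right, inner_smul_left,
        inner_smul_right, conj_trivial] at h1
      rw [← h0, e1, e2] at h1
      nlinarith
    have hpos : 0 < ⟪s, s⟫ := real_inner_self_pos.2 hne
    set m := ⟪D.br y s, D.br x s⟫ with hm
    set t : ℝ := ⟪s, s⟫ / (|m| + 1) with ht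
    have hmpos : 0 < |m| + 1 := by positivity
    have htpos : 0 < t := by positivity
    have h1 := key t
    have h2 : t ^ 2 * m ≤ t * ⟪s, s⟫ := by
      have h3 : t * m ≤ ⟪s, s⟫ := by
        have h4 : t * m ≤ t * |m| := mul_le_mul_of_nonneg_left (le_abs_self m) htpos.le
        have h5 : t * (|m| + 1) = ⟪s, s⟫ := by rw [ht]; field_simp
        nlinarith
      calc t ^ 2 * m = t * (t * m) := by ring
        _ ≤ t * ⟪s, s⟫ := mul_le_mul_of_nonneg_left h3 htpos.le
    have h6 : 0 < t * ⟪s, s⟫ := mul_pos htpos hpos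
    nlinarith
  have hyx : D.br x y = 0 := by rw [D.br_anti, h.1, neg_zero]
  have h1 : D.br y (D.br y z) = 0 := hx y _ hyx hSz
  have h2 : D.br y z = 0 := by
    refine inner_self_eq_zero (𝕜 := ℝ).1 ?_
    rw [D.br_skew, h1, inner_zero_right, neg_zero]
  exact hy x z h.1 h2

/-- **Main theorem of the axiomatic part**: a proper closed subgroup meets every conjugacy class. -/
theorem main [FiniteDimensional ℝ V] [IsTopologicalGroup Γ] [CompactSpace Γ] [T2Space Γ]
    (hna : ∃ x y, D.br x y ≠ 0) :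
    ∃ H : Subgroup Γ, IsClosed (H : Set Γ) ∧ H ≠ ⊤ ∧ ∀ g, ∃ h, h⁻¹ * g * h ∈ H := by
  obtain ⟨x, hx⟩ := D.exists_regular
  -- the elements which keep `x` in its chamber
  set W : Set Γ := {n | D.R (D.Ad n x) x} with hW
  have hWcl : IsClosed W := by
    have h1 : W = {n | D.br (D.Ad n x) x = 0} ∩ ⋂ z, {n | 0 ≤ ⟪D.br (D.Ad n x) z, D.br x z⟫} := by
      ext n
      simp only [hW, R, mem_setOf_eq, mem_inter_iff, mem_iInter]
    rw [h1]
    refine IsClosed.inter ?_ (isClosed_iInter fun z => ?_)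
    · exact isClosed_eq ((D.br_cont_left x).comp (D.Ad_cont_left x)) continuous_const
    · exact isClosed_le continuous_const
        (((D.br_cont_left z).comp (D.Ad_cont_left x)).inner continuous_const)
  have hWone : (1 : Γ) ∈ W := by
    show D.R (D.Ad 1 x) x
    rw [D.Ad_one]; exact D.R_refl x
  have hWmul : ∀ m ∈ W, ∀ n ∈ W, m * n ∈ W := by
    intro m hm n hn
    show D.R (D.Ad (m * n) x) x
    rw [D.Ad_mul]
    exact D.R_trans (D.Reg_Ad hx m) (D.R_Ad hn m) hm
  set K : Set V := (fun n => D.Ad n x) '' W with hK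
  have hKc : IsCompact K := hWcl.isCompact.image (D.Ad_cont_left x)
  have hKne : K.Nonempty := ⟨_, 1, hWone, rfl⟩
  set C : Set V := closure (convexHull ℝ K) with hC
  have hCne : C.Nonempty := (hKne.convexHull (𝕜 := ℝ)).closure
  have hCconv : Convex ℝ C := (convex_convexHull ℝ K).closure
  have hKC : K ⊆ C := (subset_convexHull ℝ K).trans subset_closure
  have : ProperSpace V := FiniteDimensional.proper ℝ V
  obtain ⟨X₀, hX₀C, hX₀⟩ := (isClosed_closure (s := convexHull ℝ K)).exists_infDist_eq_dist hCne 0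
  have hmin : ∀ u ∈ C, ‖X₀‖ ≤ ‖u‖ := by
    intro u hu
    have h1 : Metric.infDist 0 C ≤ dist 0 u := Metric.infDist_le_dist_of_mem hu
    rw [hX₀, dist_zero_left, dist_zero_left] at h1
    exact h1
  have huniq : ∀ u ∈ C, ‖u‖ = ‖X₀‖ → u = X₀ := by
    intro u hu hn
    have h1 : (1 / 2 : ℝ) • u + (1 / 2 : ℝ) • X₀ ∈ C :=
      hCconv hu hX₀C (by norm_num) (by norm_num) (by norm_num)
    have h2 := hmin _ h1
    rw [← smul_add, norm_smul] at h2
    have h3 : 2 * ‖X₀‖ ≤ ‖u + X₀‖ := by
      have : ‖(1 / 2 : ℝ)‖ = 1 / 2 := by norm_num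
      rw [this] at h2
      linarith
    have h4 := parallelogram_law_with_norm ℝ u X₀
    rw [hn] at h4
    have h5 : ‖u - X₀‖ * ‖u - X₀‖ ≤ 0 := by
      have h6 : (2 * ‖X₀‖) * (2 * ‖X₀‖) ≤ ‖u + X₀‖ * ‖u + X₀‖ :=
        mul_self_le_mul_self (by positivity) h3
      linarith
    have h6 : ‖u - X₀‖ = 0 := mul_self_eq_zero.1 (le_antisymm h5 (mul_self_nonneg _))
    exact sub_eq_zero.1 (norm_eq_zero.1 h6)
  -- `W` fixes `X₀`
  have hfix : ∀ m ∈ W, D.Ad m X₀ = X₀ := by
    intro m hm
    refine huniq _ ?_ (D.Ad_norm m X₀)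
    refine map_mem_closure (D.Ad_cont_right m) hX₀C ?_
    intro u hu
    have h1 : D.Ad m u ∈ (D.Ad m) '' (convexHull ℝ K) := ⟨u, hu, rfl⟩
    rw [LinearMap.image_convexHull] at h1
    refine convexHull_mono ?_ h1
    rintro _ ⟨_, ⟨n, hn, rfl⟩, rfl⟩
    refine ⟨m * n, hWmul m hm n hn, ?_⟩
    simp only [D.Ad_mul]
  -- `X₀` is not central
  have hX₀pos : ∀ z, D.br x z ≠ 0 → 0 < ⟪D.br X₀ z, D.br x z⟫ := by
    intro z hz
    have hcont : Continuous fun y => ⟪D.br y z, D.br x z⟫ :=
      (D.br_cont_left z).inner continuous_const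
    obtain ⟨y, hyK, hy⟩ := hKc.exists_isMinOn hKne hcont.continuousOn
    have hypos : 0 < ⟪D.br y z, D.br x z⟫ := by
      obtain ⟨n, hn, rfl⟩ := hyK
      exact D.R_pos hx (D.Reg_Ad hx n) hn hz
    have hsub : C ⊆ {v | ⟪D.br y z, D.br x z⟫ ≤ ⟪D.br v z, D.br x z⟫} := by
      refine closure_minimal (convexHull_min (fun v hv => hy hv) ?_)
        (isClosed_le continuous_const hcont)
      intro v hv w hw a b ha hb hab
      simp only [mem_setOf_eq] at hv hw ⊢
      simp only [map_add, map_smul, LinearMap.add_apply, LinearMap.smul_apply, inner_add_left,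
        inner_smul_left, conj_trivial]
      calc ⟪D.br y z, D.br x z⟫ = a * ⟪D.br y z, D.br x z⟫ + b * ⟪D.br y z, D.br x z⟫ := by
            rw [← add_mul, hab, one_mul]
        _ ≤ _ := add_le_add (mul_le_mul_of_nonneg_left hv ha) (mul_le_mul_of_nonneg_left hw hb)
    exact hypos.trans_le (hsub hX₀C)
  -- the stabilizer of `X₀`
  let H : Subgroup Γ :=
    { carrier := {g | D.Ad g X₀ = X₀}
      one_mem' := D.Ad_one X₀
      mul_mem' := by
        intro a b ha hb
        show D.Ad (a * b) X₀ = X₀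
        rw [D.Ad_mul, (show D.Ad b X₀ = X₀ from hb)]
        exact ha
      inv_mem' := by
        intro a ha
        show D.Ad a⁻¹ X₀ = X₀
        have h1 : D.Ad a X₀ = X₀ := ha
        conv_lhs => rw [← h1]
        exact D.Ad_inv_Ad a X₀ }
  refine ⟨H, isClosed_eq (D.Ad_cont_left X₀) continuous_const, ?_, ?_⟩
  · intro htop
    obtain ⟨a, b, hab⟩ := hna
    obtain ⟨z, hz⟩ : ∃ z, D.br x z ≠ 0 := by
      by_contra hcon
      push Not at hcon
      exact hab (hx a b (hcon a) (hcon b))
    have h1 : ∀ g, D.Ad g X₀ = X₀ := by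
      intro g
      have : g ∈ H := by rw [htop]; exact Subgroup.mem_top g
      exact this
    have h2 := D.hderiv z X₀
    simp only [h1] at h2
    have h3 : D.br z X₀ = 0 := h2.unique (hasDerivAt_const 0 X₀)
    have h4 := hX₀pos z hz
    rw [D.br_anti X₀ z, h3, neg_zero, inner_zero_left] at h4
    exact lt_irrefl _ h4
  · intro g
    obtain ⟨n, hn, hRn⟩ := D.exists_chamber (x := x) g
    have hnfix := hfix n hRn
    have hclopen : IsClopen (D.Cset X₀) := ⟨D.isClosed_Cset X₀, D.isOpen_Cset X₀⟩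
    have hnC : n ∈ D.Cset X₀ := ⟨1, by rw [D.Ad_one]; exact hnfix⟩
    have hgn : g ∈ connectedComponent n := by
      rw [← connectedComponent_eq hn]; exact mem_connectedComponent
    obtain ⟨h, hh⟩ := hclopen.connectedComponent_subset hnC hgn
    refine ⟨h, ?_⟩
    show D.Ad (h⁻¹ * g * h) X₀ = X₀
    rw [D.Ad_mul, D.Ad_mul, hh, D.Ad_inv_Ad]

end AdData

end Pool.Agent.H858T
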