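import Pool.Agent.H858T.Abs3
import Pool.Agent.TH77.UnitsLG

set_option autoImplicit false

/-!
# Compact matrix groups as examples of the axiomatic setting
-/

open Filter Topology Set
open scoped RealInnerProductSpace Matrix.Norms.Frobenius

namespace Pool.Agent.H858T

open Pool.Agent.TH77

/-- complex square matrices -/
abbrev Mx (r : ℕ) := Matrix (Fin r) (Fin r) ℂ

variable {r : ℕ}

lemma frob_sq (X : Mx r) : ‖X‖ ^ 2 = (Matrix.trace (Matrix.conjTranspose X * X)).re := by
  rw [Matrix.frobenius_norm_def]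
  have h0 : 0 ≤ ∑ i, ∑ j, ‖X i j‖ ^ (2 : ℝ) := by positivity
  rw [← Real.sqrt_eq_rpow, Real.sq_sqrt h0]
  simp only [Matrix.trace, Matrix.diag_apply, Matrix.mul_apply, Matrix.conjTranspose_apply,
    Complex.re_sum]
  rw [Finset.sum_comm]
  refine Finset.sum_congr rfl fun i _ => Finset.sum_congr rfl fun j _ => ?_
  rw [Real.rpow_two, Complex.star_def, ← Complex.normSq_eq_conj_mul_self, Complex.ofReal_re,
    Complex.normSq_eq_norm_sq]

/-- the real inner product `Re tr(Xᴴ Y)` -/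
noncomputable instance : InnerProductSpace ℝ (Mx r) where
  inner X Y := (Matrix.trace (Matrix.conjTranspose X * Y)).re
  norm_sq_eq_re_inner X := by
    rw [frob_sq]; rfl
  conj_inner_symm X Y := by
    simp only [conj_trivial]
    have h1 : Matrix.conjTranspose X * Y = Matrix.conjTranspose (Matrix.conjTranspose Y * X) := by
      rw [Matrix.conjTranspose_mul, Matrix.conjTranspose_conjTranspose]
    rw [h1, Matrix.trace_conjTranspose, Complex.star_def, Complex.conj_re]
  add_left X Y Z := by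
    rw [Matrix.conjTranspose_add, add_mul, Matrix.trace_add, Complex.add_re]
  smul_left X Y c := by
    simp only [conj_trivial]
    rw [Matrix.conjTranspose_smul, Matrix.smul_mul, Matrix.trace_smul]
    simp

lemma inner_mx (X Y : Mx r) : ⟪X, Y⟫ = (Matrix.trace (Matrix.conjTranspose X * Y)).re := rfl


section Group

variable (M : Subgroup (Mx r)ˣ) (hM : IsClosed (M : Set (Mx r)ˣ))

/-- the Lie algebra of a closed matrix group -/
noncomputable abbrev g : Submodule ℝ (Mx r) := (LG.units (Mx r)).lie M hM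

lemma mem_g {X : Mx r} : X ∈ g M hM ↔ ∀ t : ℝ, expU (t • X) ∈ M := Iff.rfl

lemma expU_conj (u : (Mx r)ˣ) (X : Mx r) :
    expU ((u : Mx r) * X * ((u⁻¹ : (Mx r)ˣ) : Mx r)) = u * expU X * u⁻¹ := by
  ext1
  rw [expU_val, Units.val_mul, Units.val_mul, expU_val]
  let _ : NormedAlgebra ℚ (Mx r) := NormedAlgebra.restrictScalars ℚ ℝ (Mx r)
  exact NormedSpace.exp_units_conj u X

lemma conj_mem {u : (Mx r)ˣ} (hu : u ∈ M) {X : Mx r} (hX : X ∈ g M hM) :
    (u : Mx r) * X * ((u⁻¹ : (Mx r)ˣ) : Mx r) ∈ g M hM := by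
  rw [mem_g] at hX ⊢
  intro t
  have h1 : t • ((u : Mx r) * X * ((u⁻¹ : (Mx r)ˣ) : Mx r)) =
      (u : Mx r) * (t • X) * ((u⁻¹ : (Mx r)ˣ) : Mx r) := by
    rw [mul_smul_comm, smul_mul_assoc]
  rw [h1, expU_conj]
  exact M.mul_mem (M.mul_mem hu (hX t)) (M.inv_mem hu)

lemma hasDerivAt_exp (X : Mx r) (t : ℝ) :
    HasDerivAt (fun t : ℝ => NormedSpace.exp (t • X)) (NormedSpace.exp (t • X) * X) t := by
  exact hasDerivAt_exp_smul_const X t

lemma hasDerivAt_conj (X Y : Mx r) :
    HasDerivAt (fun t : ℝ => ((expU (t • X) : (Mx r)ˣ) : Mx r) * Y *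
      (((expU (t • X))⁻¹ : (Mx r)ˣ) : Mx r)) (X * Y - Y * X) 0 := by
  have h1 := hasDerivAt_exp X 0
  have h2 := hasDerivAt_exp (-X) 0
  have h3 : HasDerivAt (fun t : ℝ => NormedSpace.exp (t • X) * Y * NormedSpace.exp (t • -X))
      (NormedSpace.exp ((0 : ℝ) • X) * X * Y * NormedSpace.exp ((0 : ℝ) • -X) +
        NormedSpace.exp ((0 : ℝ) • X) * Y * (NormedSpace.exp ((0 : ℝ) • -X) * -X)) 0 :=
    (h1.mul_const Y).mul h2
  have h5 : NormedSpace.exp ((0 : ℝ) • X) * X * Y * NormedSpace.exp ((0 : ℝ) • -X) +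
        NormedSpace.exp ((0 : ℝ) • X) * Y * (NormedSpace.exp ((0 : ℝ) • -X) * -X) =
      X * Y - Y * X := by
    rw [zero_smul, zero_smul, NormedSpace.exp_zero, one_mul, mul_one, one_mul, one_mul, mul_neg,
      sub_eq_add_neg]
  rw [h5] at h3
  have h4 : (fun t : ℝ => ((expU (t • X) : (Mx r)ˣ) : Mx r) * Y *
      (((expU (t • X))⁻¹ : (Mx r)ˣ) : Mx r)) =
      (fun t : ℝ => NormedSpace.exp (t • X) * Y * NormedSpace.exp (t • -X)) := by
    funext t
    rw [smul_neg]
    rfl
  rw [h4]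
  exact h3

lemma br_mem {X Y : Mx r} (hX : X ∈ g M hM) (hY : Y ∈ g M hM) : X * Y - Y * X ∈ g M hM := by
  have hcl : IsClosed ((g M hM : Submodule ℝ (Mx r)) : Set (Mx r)) :=
    Submodule.closed_of_finiteDimensional _
  have h1 := hasDerivAt_iff_tendsto_slope_zero.1 (hasDerivAt_conj X Y)
  refine hcl.mem_of_tendsto h1 (Eventually.of_forall fun t => ?_)
  refine (g M hM).smul_mem _ ((g M hM).sub_mem ?_ ?_)
  · exact conj_mem M hM (hX _) hY
  · exact conj_mem M hM (hX _) hY

/-- the adjoint action -/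
noncomputable def AdM (u : M) : g M hM →ₗ[ℝ] g M hM where
  toFun X := ⟨((u : (Mx r)ˣ) : Mx r) * (X : Mx r) * (((u : (Mx r)ˣ)⁻¹ : (Mx r)ˣ) : Mx r),
    conj_mem M hM u.2 X.2⟩
  map_add' X Y := by
    apply Subtype.ext
    simp only [Submodule.coe_add, mul_add, add_mul]
  map_smul' c X := by
    apply Subtype.ext
    simp only [Submodule.coe_smul, mul_smul_comm, smul_mul_assoc, RingHom.id_apply]

lemma AdM_coe (u : M) (X : g M hM) : ((AdM M hM u X : g M hM) : Mx r) =
    ((u : (Mx r)ˣ) : Mx r) * (X : Mx r) * (((u : (Mx r)ˣ)⁻¹ : (Mx r)ˣ) : Mx r) := rfl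

/-- the bracket -/
noncomputable def brM : g M hM →ₗ[ℝ] g M hM →ₗ[ℝ] g M hM :=
  LinearMap.mk₂ ℝ (fun X Y => ⟨(X : Mx r) * Y - Y * X, br_mem M hM X.2 Y.2⟩)
    (fun X Y Z => by
      apply Subtype.ext
      simp only [Submodule.coe_add, mul_add, add_mul]; abel)
    (fun c X Y => by
      apply Subtype.ext
      simp only [Submodule.coe_smul, mul_smul_comm, smul_mul_assoc, smul_sub])
    (fun X Y Z => by
      apply Subtype.ext
      simp only [Submodule.coe_add, mul_add, add_mul]; abel)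
    (fun c X Y => by
      apply Subtype.ext
      simp only [Submodule.coe_smul, mul_smul_comm, smul_mul_assoc, smul_sub])

lemma brM_coe (X Y : g M hM) : ((brM M hM X Y : g M hM) : Mx r) =
    (X : Mx r) * Y - Y * X := rfl

/-- the exponential map -/
noncomputable def exM (X : g M hM) : M := ⟨expU (X : Mx r), by
  have := (mem_g M hM).1 X.2 1
  rwa [one_smul] at this⟩

lemma exM_coe (X : g M hM) : ((exM M hM X : M) : (Mx r)ˣ) = expU (X : Mx r) := rfl

variable (hU : ∀ u ∈ M, Matrix.conjTranspose (u : Mx r) * (u : Mx r) = 1)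

include hU

lemma conj_inv {u : (Mx r)ˣ} (hu : u ∈ M) :
    Matrix.conjTranspose (u : Mx r) = ((u⁻¹ : (Mx r)ˣ) : Mx r) :=
  Units.eq_inv_of_mul_eq_one_right (hU u hu)

lemma skew_of_mem {X : Mx r} (hX : X ∈ g M hM) : Matrix.conjTranspose X = -X := by
  refine (LG.units (Mx r)).eq_of_forall_exp fun t => ?_
  ext1
  have h1 : Matrix.conjTranspose ((expU (t • X) : (Mx r)ˣ) : Mx r) =
      (((expU (t • X))⁻¹ : (Mx r)ˣ) : Mx r) := conj_inv M hU (hX t)
  have h2 : NormedSpace.exp (t • Matrix.conjTranspose X) =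
      Matrix.conjTranspose ((expU (t • X) : (Mx r)ˣ) : Mx r) := by
    have h4 : t • Matrix.conjTranspose X = Matrix.conjTranspose (t • X) := by
      rw [Matrix.conjTranspose_smul]; simp
    rw [h4]
    exact Matrix.exp_conjTranspose (t • X)
  have h3 : (((expU (t • X))⁻¹ : (Mx r)ˣ) : Mx r) = NormedSpace.exp (-(t • X)) := rfl
  have h5 : NormedSpace.exp (t • Matrix.conjTranspose X) = NormedSpace.exp (t • -X) := by
    rw [h2, h1, h3, smul_neg]
  exact h5

end Group

end Pool.Agent.H858T
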