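import Pool.Agent.H858T.Mat

set_option autoImplicit false

/-!
# Compact matrix groups as examples of the axiomatic setting, part 2
-/

open Filter Topology Set
open scoped RealInnerProductSpace Matrix.Norms.Frobenius

namespace Pool.Agent.H858T

open Pool.Agent.TH77

variable {r : ℕ} (M : Subgroup (Mx r)ˣ) (hM : IsClosed (M : Set (Mx r)ˣ))

lemma AdM_one (v : g M hM) : AdM M hM 1 v = v := by
  apply Subtype.ext
  rw [AdM_coe]
  simp

lemma AdM_mul (a b : M) (v : g M hM) : AdM M hM (a * b) v = AdM M hM a (AdM M hM b v) := by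
  apply Subtype.ext
  rw [AdM_coe, AdM_coe, AdM_coe]
  simp only [Subgroup.coe_mul, Units.val_mul, mul_inv_rev, mul_assoc]

lemma AdM_cont : Continuous fun p : M × g M hM => AdM M hM p.1 p.2 := by
  refine Continuous.subtype_mk ?_ _
  have h1 : Continuous fun p : M × g M hM => ((p.1 : (Mx r)ˣ) : Mx r) :=
    Units.continuous_val.comp (continuous_subtype_val.comp continuous_fst)
  have h2 : Continuous fun p : M × g M hM => (((p.1 : (Mx r)ˣ)⁻¹ : (Mx r)ˣ) : Mx r) :=
    Units.continuous_val.comp (continuous_inv.comp (continuous_subtype_val.comp continuous_fst))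
  exact (h1.mul (continuous_subtype_val.comp continuous_snd)).mul h2

lemma AdM_br (u : M) (v w : g M hM) :
    AdM M hM u (brM M hM v w) = brM M hM (AdM M hM u v) (AdM M hM u w) := by
  apply Subtype.ext
  rw [AdM_coe, brM_coe, brM_coe, AdM_coe, AdM_coe]
  have h1 : (((u : (Mx r)ˣ)⁻¹ : (Mx r)ˣ) : Mx r) * ((u : (Mx r)ˣ) : Mx r) = 1 :=
    Units.inv_mul _
  set a := ((u : (Mx r)ˣ) : Mx r)
  set b := (((u : (Mx r)ˣ)⁻¹ : (Mx r)ˣ) : Mx r)
  set X := (v : Mx r)
  set Y := (w : Mx r)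
  have h2 : ∀ P Q : Mx r, a * P * b * (a * Q * b) = a * (P * Q) * b := by
    intro P Q
    calc a * P * b * (a * Q * b) = a * P * (b * a) * Q * b := by simp only [mul_assoc]
      _ = _ := by rw [h1]; simp only [mul_assoc, one_mul]
  rw [h2, h2, mul_sub, sub_mul]

lemma brM_self (v : g M hM) : brM M hM v v = 0 := by
  apply Subtype.ext
  rw [brM_coe, sub_self]; rfl

lemma brM_jacobi (x y z : g M hM) : brM M hM x (brM M hM y z) =
    brM M hM (brM M hM x y) z + brM M hM y (brM M hM x z) := by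
  apply Subtype.ext
  simp only [brM_coe, Submodule.coe_add]
  noncomm_ring

lemma exM_add (s t : ℝ) (v : g M hM) :
    exM M hM ((s + t) • v) = exM M hM (s • v) * exM M hM (t • v) := by
  apply Subtype.ext
  exact (LG.units (Mx r)).exp_add s t (v : Mx r)

lemma exM_cont : Continuous (exM M hM) := by
  refine Continuous.subtype_mk ?_ _
  exact (LG.units (Mx r)).cont.comp continuous_subtype_val

lemma exM_conj (u : M) (v : g M hM) : u * exM M hM v * u⁻¹ = exM M hM (AdM M hM u v) := by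
  apply Subtype.ext
  exact (expU_conj (u : (Mx r)ˣ) (v : Mx r)).symm

lemma hasDerivAt_sub {f : ℝ → g M hM} {f' : g M hM} {t : ℝ}
    (h : HasDerivAt (fun s => (f s : Mx r)) (f' : Mx r) t) : HasDerivAt f f' t := by
  have h1 : (fun x' : ℝ => (f x' : Mx r) - (f t : Mx r) - (x' - t) • (f' : Mx r)) =o[𝓝 t]
      fun x' => x' - t := hasDerivAt_iff_isLittleO.1 h
  refine hasDerivAt_iff_isLittleO.2 ?_
  have h2 : (fun x' : ℝ => ‖(f x' : Mx r) - (f t : Mx r) - (x' - t) • (f' : Mx r)‖) =o[𝓝 t]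
      fun x' => x' - t := Asymptotics.isLittleO_norm_left.2 h1
  have h3 : (fun x' : ℝ => ‖f x' - f t - (x' - t) • f'‖) =o[𝓝 t] fun x' => x' - t := h2
  exact Asymptotics.isLittleO_norm_left.1 h3

lemma exM_deriv (z y : g M hM) :
    HasDerivAt (fun t : ℝ => AdM M hM (exM M hM (t • z)) y) (brM M hM z y) 0 := by
  refine hasDerivAt_sub M hM ?_
  exact hasDerivAt_conj (z : Mx r) (y : Mx r)

variable (hU : ∀ u ∈ M, Matrix.conjTranspose (u : Mx r) * (u : Mx r) = 1)

include hU

lemma AdM_inner (u : M) (v w : g M hM) : ⟪AdM M hM u v, AdM M hM u w⟫ = ⟪v, w⟫ := by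
  rw [Submodule.coe_inner, Submodule.coe_inner, inner_mx, inner_mx, AdM_coe, AdM_coe]
  have h1 : (((u : (Mx r)ˣ)⁻¹ : (Mx r)ˣ) : Mx r) * ((u : (Mx r)ˣ) : Mx r) = 1 :=
    Units.inv_mul _
  have h2 := conj_inv M hU u.2
  have h3 : Matrix.conjTranspose (((u : (Mx r)ˣ)⁻¹ : (Mx r)ˣ) : Mx r) = ((u : (Mx r)ˣ) : Mx r) := by
    rw [← h2, Matrix.conjTranspose_conjTranspose]
  set a := ((u : (Mx r)ˣ) : Mx r)
  set b := (((u : (Mx r)ˣ)⁻¹ : (Mx r)ˣ) : Mx r)
  rw [Matrix.conjTranspose_mul, Matrix.conjTranspose_mul, h2, h3]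
  have h4 : a * (Matrix.conjTranspose (v : Mx r) * b) * (a * (w : Mx r) * b) =
      a * (Matrix.conjTranspose (v : Mx r) * (w : Mx r)) * b := by
    calc a * (Matrix.conjTranspose (v : Mx r) * b) * (a * (w : Mx r) * b)
        = a * Matrix.conjTranspose (v : Mx r) * (b * a) * (w : Mx r) * b := by
          simp only [mul_assoc]
      _ = _ := by rw [h1]; simp only [mul_assoc, one_mul]
  rw [h4, Matrix.trace_mul_cycle, h1, one_mul]

lemma brM_inner (x y z : g M hM) : ⟪brM M hM x y, z⟫ = ⟪x, brM M hM y z⟫ := by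
  rw [Submodule.coe_inner, Submodule.coe_inner, inner_mx, inner_mx, brM_coe, brM_coe]
  have hx := skew_of_mem M hM hU x.2
  have hy := skew_of_mem M hM hU y.2
  set X := (x : Mx r)
  set Y := (y : Mx r)
  set Z := (z : Mx r)
  rw [Matrix.conjTranspose_sub, Matrix.conjTranspose_mul, Matrix.conjTranspose_mul, hx, hy]
  have h1 : (-Y * -X - -X * -Y) * Z = Y * X * Z - X * Y * Z := by noncomm_ring
  have h2 : -X * (Y * Z - Z * Y) = X * Z * Y - X * Y * Z := by noncomm_ring
  rw [h1, h2, Matrix.trace_sub, Matrix.trace_sub, Matrix.trace_mul_cycle X Z Y]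

end Pool.Agent.H858T
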