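import Pool.Agent.H858T.Mat2

set_option autoImplicit false

/-!
# Compact matrix groups as examples of the axiomatic setting, part 3
-/

open Filter Topology Set
open scoped RealInnerProductSpace Matrix.Norms.Frobenius

namespace Pool.Agent.H858T

open Pool.Agent.TH77

variable {r : ℕ} (M : Subgroup (Mx r)ˣ) (hM : IsClosed (M : Set (Mx r)ˣ))
  (hU : ∀ u ∈ M, Matrix.conjTranspose (u : Mx r) * (u : Mx r) = 1)

include hU

lemma locsurj (c : M) : ∀ᶠ γ in 𝓝 (1 : M), ∃ w z, AdM M hM c z = z ∧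
    γ = exM M hM (AdM M hM c⁻¹ w) * exM M hM z * exM M hM (-w) := by
  let L := LG.units (Mx r)
  let V := g M hM
  let T : V →L[ℝ] V := LinearMap.toContinuousLinearMap (AdM M hM c⁻¹)
  let Kc : Submodule ℝ V := LinearMap.ker (AdM M hM c - LinearMap.id)
  have hKc : ∀ v : V, v ∈ Kc ↔ AdM M hM c v = v := by
    intro v
    rw [LinearMap.mem_ker, LinearMap.sub_apply, LinearMap.id_apply, sub_eq_zero]
  let α : (V × Kc) →L[ℝ] (Mx r) × (Mx r) :=
    ((V.subtypeL.comp T).comp (ContinuousLinearMap.fst ℝ V Kc)).prod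
      ((V.subtypeL.comp Kc.subtypeL).comp (ContinuousLinearMap.snd ℝ V Kc))
  have hα : ∀ p : V × Kc, α p = (((AdM M hM c⁻¹ p.1 : V) : Mx r), ((p.2 : V) : Mx r)) :=
    fun p => rfl
  let ν : (V × Kc) →L[ℝ] Mx r := -(V.subtypeL.comp (ContinuousLinearMap.fst ℝ V Kc))
  have hν : ∀ p : V × Kc, ν p = -(p.1 : Mx r) := fun p => rfl
  let S2 : (Mx r × Mx r) →L[ℝ] Mx r :=
    ContinuousLinearMap.fst ℝ (Mx r) (Mx r) + ContinuousLinearMap.snd ℝ (Mx r) (Mx r)
  have hd0 : HasStrictFDerivAt L.mul S2 0 := L.mul_deriv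
  have hd1 : HasStrictFDerivAt (fun p : V × Kc => L.mul (α p)) (S2.comp α) 0 := by
    have h1 : HasStrictFDerivAt L.mul S2 (α 0) := by rw [map_zero]; exact hd0
    exact h1.comp 0 α.hasStrictFDerivAt
  have hd2 : HasStrictFDerivAt (fun p : V × Kc => (L.mul (α p), ν p)) ((S2.comp α).prod ν) 0 :=
    hd1.prodMk ν.hasStrictFDerivAt
  let φ : V × Kc → Mx r := fun p => L.mul (L.mul (α p), ν p)
  have hd3 : HasStrictFDerivAt φ (S2.comp ((S2.comp α).prod ν)) 0 := by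
    have h1 : HasStrictFDerivAt L.mul S2 ((fun p : V × Kc => (L.mul (α p), ν p)) 0) := by
      have h2 : ((fun p : V × Kc => (L.mul (α p), ν p)) 0) = 0 := by
        simp only [map_zero, L.mul_zero]; rfl
      rw [h2]; exact hd0
    exact h1.comp (0 : V × Kc) hd2
  have hφ0 : φ 0 = 0 := by
    show L.mul (L.mul (α 0), ν 0) = 0
    rw [map_zero, map_zero, L.mul_zero]; exact L.mul_zero
  let π : Mx r →L[ℝ] V := V.orthogonalProjectionOnto
  have hπ : ∀ v : V, π (v : Mx r) = v := fun v =>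
    Submodule.orthogonalProjectionOnto_mem_subspace_eq_self v
  have hd4 : HasStrictFDerivAt (fun p => π (φ p)) (π.comp (S2.comp ((S2.comp α).prod ν))) 0 :=
    π.hasStrictFDerivAt.comp (0 : V × Kc) hd3
  have hsurj : (π.comp (S2.comp ((S2.comp α).prod ν))).range = ⊤ := by
    rw [LinearMap.range_eq_top]
    intro v
    let Q : V →ₗ[ℝ] V := AdM M hM c⁻¹ - LinearMap.id
    obtain ⟨a, ⟨w, rfl⟩, b, hb, rfl⟩ := (LinearMap.range Q).exists_add_mem_mem_orthogonal v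
    have hbK : AdM M hM c b = b := by
      have h1 := (Submodule.mem_orthogonal _ _).1 hb (Q (AdM M hM c b)) ⟨_, rfl⟩
      have h2 : Q (AdM M hM c b) = b - AdM M hM c b := by
        show AdM M hM c⁻¹ (AdM M hM c b) - AdM M hM c b = _
        rw [← AdM_mul, inv_mul_cancel, AdM_one]
      rw [h2] at h1
      have h3 : ⟪b - AdM M hM c b, b - AdM M hM c b⟫ = 0 := by
        rw [inner_sub_right, h1, zero_sub, inner_sub_left, AdM_inner M hM hU]
        rw [inner_sub_left, real_inner_comm] at h1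
        rw [neg_sub, ← neg_sub, real_inner_comm] 
        linarith
      exact (sub_eq_zero.1 (inner_self_eq_zero.1 h3)).symm
    refine ⟨(w, ⟨b, (hKc b).2 hbK⟩), ?_⟩
    show π (S2 (S2 (α (w, ⟨b, (hKc b).2 hbK⟩)), ν (w, ⟨b, (hKc b).2 hbK⟩))) = Q w + b
    rw [← hπ (Q w + b)]
    congr 1
    show ((AdM M hM c⁻¹ w : V) : Mx r) + (b : Mx r) + -(w : Mx r) = ((Q w + b : V) : Mx r)
    have h4 : ((Q w + b : V) : Mx r) = ((AdM M hM c⁻¹ w : V) : Mx r) - (w : Mx r) + (b : Mx r) := rfl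
    rw [h4]; abel
  have hmap := hd4.map_nhds_eq_of_surj hsurj
  obtain ⟨ρ, hρ, hball⟩ := L.exists_ball_mem_lie M hM
  have e1 : ∀ᶠ p in 𝓝 (0 : V × Kc), L.exp (α p).1 * L.exp (α p).2 = L.exp (L.mul (α p)) := by
    have h1 : Tendsto α (𝓝 0) (𝓝 0) := α.continuous.tendsto' 0 0 (map_zero _)
    exact h1.eventually L.exp_mul
  have e2 : ∀ᶠ p in 𝓝 (0 : V × Kc), L.exp (L.mul (α p)) * L.exp (ν p) = L.exp (φ p) := by
    have h1 : Tendsto (fun p : V × Kc => (L.mul (α p), ν p)) (𝓝 0) (𝓝 0) := by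
      have h2 := hd2.continuousAt.tendsto
      have h3 : (L.mul (α 0), ν 0) = (0 : Mx r × Mx r) := by
        rw [map_zero, map_zero, L.mul_zero]; rfl
      rwa [h3] at h2
    exact h1.eventually L.exp_mul
  have e3 : ∀ᶠ p in 𝓝 (0 : V × Kc), ‖φ p‖ < ρ := by
    have h1 := hd3.continuousAt.norm.tendsto
    rw [hφ0, norm_zero] at h1
    exact h1.eventually (gt_mem_nhds hρ)
  have hS := e1.and (e2.and e3)
  have himg : (fun p => π (φ p)) '' {p | L.exp (α p).1 * L.exp (α p).2 = L.exp (L.mul (α p)) ∧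
      L.exp (L.mul (α p)) * L.exp (ν p) = L.exp (φ p) ∧ ‖φ p‖ < ρ} ∈ 𝓝 (0 : V) := by
    have h1 : π (φ 0) = 0 := by rw [hφ0, map_zero]
    have h2 := image_mem_map (m := fun p => π (φ p)) hS
    have h3 : map (fun p => π (φ p)) (𝓝 (0 : V × Kc)) = 𝓝 (0 : V) := by
      have h4 := hmap
      rw [h1] at h4
      exact h4
    rw [h3] at h2
    exact h2
  obtain ⟨ε, hε, hεball⟩ := Metric.mem_nhds_iff.1 himg
  have hγ : ∀ᶠ γ : M in 𝓝 (1 : M), ∃ x : Mx r, ‖x‖ < min ε ρ ∧ L.exp x = (γ : (Mx r)ˣ) := by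
    have h1 : Tendsto (fun γ : M => (γ : (Mx r)ˣ)) (𝓝 1) (𝓝 1) :=
      continuous_subtype_val.tendsto' _ _ rfl
    exact h1.eventually (L.exists_exp_eq (lt_min hε hρ))
  filter_upwards [hγ] with γ hγ'
  obtain ⟨x, hx, hxγ⟩ := hγ'
  have hxM : x ∈ g M hM := by
    refine hball x (hx.trans_le (min_le_right _ _)) ?_
    rw [hxγ]; exact γ.2
  have hxb : (⟨x, hxM⟩ : V) ∈ Metric.ball (0 : V) ε := by
    rw [mem_ball_zero_iff]
    exact hx.trans_le (min_le_left _ _)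
  obtain ⟨p, ⟨h1, h2, h3⟩, hp⟩ := hεball hxb
  have hF : L.exp (φ p) = ((exM M hM (AdM M hM c⁻¹ p.1) * exM M hM (p.2 : V) *
      exM M hM (-p.1) : M) : (Mx r)ˣ) := by
    rw [← h2, ← h1]; rfl
  have hφM : φ p ∈ g M hM := by
    refine hball _ h3 ?_
    rw [hF]; exact Subtype.coe_prop _
  have hφx : φ p = x := by
    have h4 : π (φ p) = ⟨φ p, hφM⟩ := hπ ⟨φ p, hφM⟩
    have h5 : (⟨φ p, hφM⟩ : V) = ⟨x, hxM⟩ := by rw [← h4]; exact hp
    exact congrArg Subtype.val h5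
  refine ⟨p.1, (p.2 : V), (hKc _).1 p.2.2, ?_⟩
  apply Subtype.ext
  rw [← hF, hφx, hxγ]

/-- a compact group of unitary matrices -/
noncomputable def data : AdData M (g M hM) where
  Ad := AdM M hM
  ex := exM M hM
  br := brM M hM
  Ad_one := AdM_one M hM
  Ad_mul := AdM_mul M hM
  Ad_cont := AdM_cont M hM
  Ad_inner := AdM_inner M hM hU
  Ad_br := AdM_br M hM
  br_self := brM_self M hM
  jacobi := brM_jacobi M hM
  br_inner := brM_inner M hM hU
  ex_add := exM_add M hM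
  ex_cont := exM_cont M hM
  conj_ex := exM_conj M hM
  hderiv := exM_deriv M hM
  locsurj := locsurj M hM hU

theorem mat_main (hMc : IsCompact (M : Set (Mx r)ˣ))
    (hna : ∃ x ∈ g M hM, ∃ y ∈ g M hM, x * y ≠ y * x) :
    ∃ H : Subgroup M, IsClosed (H : Set M) ∧ H ≠ ⊤ ∧ ∀ a : M, ∃ h : M, h⁻¹ * a * h ∈ H := by
  have : CompactSpace M := isCompact_iff_compactSpace.1 hMc
  refine (data M hM hU).main ?_
  obtain ⟨x, hx, y, hy, hxy⟩ := hna
  refine ⟨⟨x, hx⟩, ⟨y, hy⟩, fun h => hxy ?_⟩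
  have h1 := congrArg Subtype.val h
  have h2 : x * y - y * x = 0 := h1
  exact sub_eq_zero.1 h2

end Pool.Agent.H858T
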