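import Mathlib

set_option autoImplicit false

/-!
# Finite and profinite groups: closed subgroups meeting every conjugacy class
-/

open Filter Topology Set

namespace Pool.Agent.H858T

/-- Jordan: a subgroup of a finite group which meets every conjugacy class is everything. -/
theorem jordan {F : Type*} [Group F] [Finite F] (K : Subgroup F)
    (h : ∀ x : F, ∃ y : F, y * x * y⁻¹ ∈ K) : K = ⊤ := by
  classical
  have := Fintype.ofFinite F
  have hsum := MulAction.sum_card_fixedBy_eq_card_orbits_mul_card_group F (F ⧸ K)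
  have horb : Fintype.card (Quotient (MulAction.orbitRel F (F ⧸ K))) = 1 := by
    rw [Fintype.card_eq_one_iff]
    refine ⟨Quotient.mk'' (QuotientGroup.mk 1), fun q => ?_⟩
    induction q using Quotient.inductionOn' with
    | h a =>
      apply Quotient.sound'
      exact MulAction.exists_smul_eq F _ _
  rw [horb, one_mul] at hsum
  have hpos : ∀ x : F, 1 ≤ Fintype.card (MulAction.fixedBy (F ⧸ K) x) := by
    intro x
    obtain ⟨y, hy⟩ := h x
    rw [Nat.one_le_iff_ne_zero, ← Nat.pos_iff_ne_zero, Fintype.card_pos_iff]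
    refine ⟨⟨QuotientGroup.mk y⁻¹, ?_⟩⟩
    rw [MulAction.mem_fixedBy]
    show (QuotientGroup.mk (x * y⁻¹) : F ⧸ K) = QuotientGroup.mk y⁻¹
    rw [QuotientGroup.eq]
    have : (x * y⁻¹)⁻¹ * y⁻¹ = (y * x * y⁻¹)⁻¹ := by group
    rw [this]
    exact K.inv_mem hy
  have hone : Fintype.card (MulAction.fixedBy (F ⧸ K) (1 : F)) = Fintype.card (F ⧸ K) := by
    refine Fintype.card_congr ((Equiv.subtypeUnivEquiv fun a => ?_))
    exact one_smul F a
  have h1 : Fintype.card (F ⧸ K) ≤ 1 := by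
    by_contra hcon
    have h2 : ∑ x : F, 1 < ∑ x : F, Fintype.card (MulAction.fixedBy (F ⧸ K) x) := by
      refine Finset.sum_lt_sum (fun x _ => hpos x) ⟨1, Finset.mem_univ _, ?_⟩
      rw [hone]
      omega
    rw [hsum] at h2
    simp at h2
  rw [eq_top_iff]
  intro x _
  have h3 : (QuotientGroup.mk (1 : F) : F ⧸ K) = QuotientGroup.mk x := by
    have := Fintype.card_le_one_iff_subsingleton.1 h1
    exact Subsingleton.elim _ _
  rw [QuotientGroup.eq] at h3
  simpa using h3

/-- the same for closed subgroups of profinite groups -/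
theorem profinite {Q : Type*} [Group Q] [TopologicalSpace Q] [IsTopologicalGroup Q]
    [CompactSpace Q] [TotallyDisconnectedSpace Q] (H : Subgroup Q) (hH : IsClosed (H : Set Q))
    (hc : ∀ x : Q, ∃ y : Q, y * x * y⁻¹ ∈ H) : H = ⊤ := by
  by_contra hne
  obtain ⟨q, hq⟩ : ∃ q, q ∉ H := by
    by_contra hcon
    push Not at hcon
    exact hne (eq_top_iff.2 fun x _ => hcon x)
  have hW : IsOpen {u : Q | q * u ∉ H} :=
    hH.isOpen_compl.preimage (continuous_const.mul continuous_id)
  obtain ⟨U, hU⟩ := ProfiniteGrp.exist_openNormalSubgroup_sub_open_nhds_of_one hW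
    (show q * 1 ∉ H by rwa [mul_one])
  have hn : (U.toSubgroup).Normal := U.isNormal'
  have hfin : Finite (Q ⧸ U.toSubgroup) := Subgroup.quotient_finite_of_isOpen _ U.isOpen'
  let π := QuotientGroup.mk' U.toSubgroup
  have h1 : H.map π = ⊤ := by
    refine jordan _ fun x => ?_
    obtain ⟨x, rfl⟩ := QuotientGroup.mk'_surjective _ x
    obtain ⟨y, hy⟩ := hc x
    refine ⟨π y, ⟨y * x * y⁻¹, hy, ?_⟩⟩
    simp only [map_mul, map_inv]; rfl
  have h2 : π q ∈ H.map π := by rw [h1]; exact Subgroup.mem_top _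
  obtain ⟨h, hh, hhq⟩ := h2
  have h3 : q⁻¹ * h ∈ U.toSubgroup := by
    rw [← QuotientGroup.eq]; exact hhq.symm
  have h4 : q * (q⁻¹ * h) ∉ H := hU h3
  apply h4
  rwa [mul_inv_cancel_left]

/-- abelian-by-profinite compact groups -/
theorem abelian_by_profinite {G : Type*} [Group G] [TopologicalSpace G] [IsTopologicalGroup G]
    [CompactSpace G] (N : Subgroup G) (hN : N.Normal) (hcl : IsClosed (N : Set G))
    (hab : ∀ a ∈ N, ∀ b ∈ N, a * b = b * a) (htd : TotallyDisconnectedSpace (G ⧸ N))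
    (H : Subgroup G) (hH : IsClosed (H : Set G)) (hc : ∀ x : G, ∃ y : G, y * x * y⁻¹ ∈ H) :
    H = ⊤ := by
  have : IsClosed (N : Set G) := hcl
  let π := QuotientGroup.mk' N
  have hT2 : T2Space (G ⧸ N) := inferInstance
  have h1 : H.map π = ⊤ := by
    refine profinite _ ?_ fun x => ?_
    · rw [Subgroup.coe_map]
      exact (hH.isCompact.image (QuotientGroup.continuous_mk)).isClosed
    · obtain ⟨x, rfl⟩ := QuotientGroup.mk'_surjective _ x
      obtain ⟨y, hy⟩ := hc x
      refine ⟨π y, ⟨y * x * y⁻¹, hy, ?_⟩⟩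
      simp only [map_mul, map_inv]; rfl
  have h2 : ∀ g : G, ∃ h ∈ H, ∃ n ∈ N, g = h * n := by
    intro g
    have h3 : π g ∈ H.map π := by rw [h1]; exact Subgroup.mem_top _
    obtain ⟨h, hh, hhg⟩ := h3
    refine ⟨h, hh, h⁻¹ * g, ?_, by rw [mul_inv_cancel_left]⟩
    rw [← QuotientGroup.eq]; exact hhg
  have h3 : N ≤ H := by
    intro x hx
    obtain ⟨y, hy⟩ := hc x
    obtain ⟨h, hh, n, hn, rfl⟩ := h2 y
    have h4 : h * n * x * (h * n)⁻¹ = h * x * h⁻¹ := by
      have := hab n hn x hx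
      calc h * n * x * (h * n)⁻¹ = h * (n * x) * n⁻¹ * h⁻¹ := by group
        _ = h * (x * n) * n⁻¹ * h⁻¹ := by rw [this]
        _ = _ := by group
    rw [h4] at hy
    have h5 := H.mul_mem (H.mul_mem (H.inv_mem hh) hy) hh
    have h6 : h⁻¹ * (h * x * h⁻¹) * h = x := by group
    rwa [h6] at h5
  rw [eq_top_iff]
  intro g _
  obtain ⟨h, hh, n, hn, rfl⟩ := h2 g
  exact H.mul_mem hh (h3 hn)

end Pool.Agent.H858T
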