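import Pool.Agent.H858T.Mat3
import Pool.Agent.H858T.Prof
import Pool.Agent.Y842.CX.Sep

set_option autoImplicit false

/-!
# Compact groups with a non-abelian identity component are not topologically invariably generated
-/

open Filter Topology Set
open scoped Matrix.Norms.Frobenius

namespace Pool.Agent.H858T

open Pool.Agent.TH77

/-- If `b` and `c` in the identity component of a matrix group do not commute, its Lie algebra is
not abelian. -/
theorem comm_of_lie {r : ℕ} (M : Subgroup (Mx r)ˣ) (hM : IsClosed (M : Set (Mx r)ˣ))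
    (hab : ∀ x ∈ g M hM, ∀ y ∈ g M hM, x * y = y * x) {a b : M}
    (ha : a ∈ connectedComponent (1 : M)) (hb : b ∈ connectedComponent (1 : M)) :
    a * b = b * a := by
  let L := LG.units (Mx r)
  obtain ⟨ρ, hρ, hball⟩ := L.exists_ball_mem_lie M hM
  set U : Set M := {γ | ∃ x ∈ g M hM, L.exp x = (γ : (Mx r)ˣ)} with hU
  have hU1 : U ∈ 𝓝 (1 : M) := by
    have h1 : Tendsto (fun γ : M => (γ : (Mx r)ˣ)) (𝓝 1) (𝓝 1) :=
      continuous_subtype_val.tendsto' _ _ rfl
    have h2 : ∀ᶠ γ : M in 𝓝 (1 : M), ∃ x : Mx r, ‖x‖ < ρ ∧ L.exp x = (γ : (Mx r)ˣ) :=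
      h1.eventually (L.exists_exp_eq hρ)
    filter_upwards [h2] with γ hγ
    obtain ⟨x, hx, hxγ⟩ := hγ
    exact ⟨x, hball x hx (by rw [hxγ]; exact γ.2), hxγ⟩
  have hUc : ∀ x ∈ U, ∀ y ∈ U, x * y = y * x := by
    rintro x ⟨X, hX, hXx⟩ y ⟨Y, hY, hYy⟩
    apply Subtype.ext
    rw [Subgroup.coe_mul, Subgroup.coe_mul, ← hXx, ← hYy]
    ext1
    rw [Units.val_mul, Units.val_mul, LG.units_exp, LG.units_exp]
    have h1 : Commute X Y := hab X hX Y hY
    rw [← expR_add h1, ← expR_add h1.symm, add_comm]
  let S : Subgroup M := Subgroup.closure U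
  have hSo : IsOpen (S : Set M) :=
    Subgroup.isOpen_of_mem_nhds S (g := 1) (mem_of_superset hU1 Subgroup.subset_closure)
  have hSc : IsClosed (S : Set M) := Subgroup.isClosed_of_isOpen S hSo
  have hsub : connectedComponent (1 : M) ⊆ (S : Set M) :=
    IsClopen.connectedComponent_subset (⟨hSc, hSo⟩ : IsClopen (S : Set M)) S.one_mem
  have haS : a ∈ S := hsub ha
  have hbS : b ∈ S := hsub hb
  have h1 : S ≤ Subgroup.centralizer (U : Set M) := by
    refine (Subgroup.closure_le _).2 fun x hx => ?_
    rw [SetLike.mem_coe, Subgroup.mem_centralizer_iff]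
    intro y hy
    exact hUc y hy x hx
  have h2 : S ≤ Subgroup.centralizer (Subgroup.centralizer (U : Set M) : Set M) :=
    Subgroup.closure_le_centralizer_centralizer U
  have h3 := Subgroup.mem_centralizer_iff.1 (h2 haS) b (h1 hbS)
  exact h3.symm

/-- **A compact group with a non-abelian identity component has a proper closed subgroup which
meets every conjugacy class.** -/
theorem exists_proper {G : Type} [Group G] [TopologicalSpace G] [IsTopologicalGroup G]
    [CompactSpace G] [T2Space G] {a b : G} (ha : a ∈ connectedComponent (1 : G))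
    (hb : b ∈ connectedComponent (1 : G)) (hab : a * b ≠ b * a) :
    ∃ H : Subgroup G, IsClosed (H : Set G) ∧ H ≠ ⊤ ∧ ∀ x, ∃ y, y * x * y⁻¹ ∈ H := by
  obtain ⟨r, ρ, hρc, hρ⟩ := Pool.Agent.Y842.CX.separated_of_compact G (a * b) (b * a) hab
  let f : G →* (Mx r)ˣ := (Unitary.toUnits (R := Mx r)).comp ρ
  have hfv : ∀ x, ((f x : (Mx r)ˣ) : Mx r) = (ρ x : Mx r) := fun x => rfl
  have hfc : Continuous f := by
    rw [Units.continuous_iff]
    refine ⟨continuous_subtype_val.comp hρc, ?_⟩
    have h1 : (fun x => (((f x)⁻¹ : (Mx r)ˣ) : Mx r)) = fun x => (ρ x⁻¹ : Mx r) := by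
      funext x
      rw [← map_inv, hfv]
    rw [h1]
    exact continuous_subtype_val.comp (hρc.comp continuous_inv)
  set M : Subgroup (Mx r)ˣ := f.range with hMdef
  have hMc : IsCompact (M : Set (Mx r)ˣ) := by
    rw [hMdef, MonoidHom.coe_range]
    exact isCompact_range hfc
  have hM : IsClosed (M : Set (Mx r)ˣ) := hMc.isClosed
  have hU : ∀ u ∈ M, Matrix.conjTranspose (u : Mx r) * (u : Mx r) = 1 := by
    rintro _ ⟨x, rfl⟩
    rw [hfv]
    exact Matrix.UnitaryGroup.star_mul_self (ρ x)
  let F : G →* M := f.rangeRestrict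
  have hFc : Continuous F := hfc.subtype_mk _
  have hFs : Function.Surjective F := f.rangeRestrict_surjective
  have hna : ∃ x ∈ g M hM, ∃ y ∈ g M hM, x * y ≠ y * x := by
    by_contra hcon
    push Not at hcon
    have h1 : ∀ {c : G}, c ∈ connectedComponent (1 : G) → F c ∈ connectedComponent (1 : M) := by
      intro c hc
      have h2 := hFc.image_connectedComponent_subset 1 ⟨c, hc, rfl⟩
      rwa [map_one] at h2
    have h2 := comm_of_lie M hM hcon (h1 ha) (h1 hb)
    rw [← map_mul, ← map_mul] at h2
    apply hρ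
    apply Subtype.ext
    have h3 : f (a * b) = f (b * a) := congrArg Subtype.val h2
    exact congrArg Units.val h3
  obtain ⟨H, hH, hne, hcj⟩ := mat_main M hM hU hMc hna
  refine ⟨H.comap F, hH.preimage hFc, ?_, ?_⟩
  · intro htop
    apply hne
    rw [eq_top_iff]
    intro m _
    obtain ⟨x, rfl⟩ := hFs m
    have : x ∈ H.comap F := by rw [htop]; exact Subgroup.mem_top _
    exact this
  · intro x
    obtain ⟨h, hh⟩ := hcj (F x)
    obtain ⟨y, rfl⟩ := hFs h
    refine ⟨y⁻¹, ?_⟩
    rw [Subgroup.mem_comap, map_mul, map_mul, map_inv, inv_inv]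
    exact hh

/-- the quotient by the identity component is totally disconnected -/
theorem quot_td (G : Type) [Group G] [TopologicalSpace G] [IsTopologicalGroup G] (N : Subgroup G)
    (hN : (N : Set G) = connectedComponent (1 : G)) : TotallyDisconnectedSpace (G ⧸ N) := by
  have hmem : ∀ x, x ∈ N ↔ x ∈ connectedComponent (1 : G) := fun x => by
    rw [← SetLike.mem_coe, hN]
  have hconn : IsConnected (N : Set G) := by rw [hN]; exact isConnected_connectedComponent
  have hfib : ∀ q : G ⧸ N, IsConnected ((QuotientGroup.mk : G → G ⧸ N) ⁻¹' {q}) := by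
    intro q
    obtain ⟨a, rfl⟩ := QuotientGroup.mk_surjective q
    have h1 : (QuotientGroup.mk : G → G ⧸ N) ⁻¹' {QuotientGroup.mk a} =
        (fun x => a * x) '' (N : Set G) := by
      ext x
      rw [mem_preimage, mem_singleton_iff, eq_comm, QuotientGroup.eq]
      constructor
      · intro hx
        exact ⟨a⁻¹ * x, hx, by simp⟩
      · rintro ⟨n, hn, rfl⟩
        simpa using hn
    rw [h1]
    exact hconn.image _ (continuous_const.mul continuous_id).continuousOn
  have hq : IsQuotientMap (QuotientGroup.mk : G → G ⧸ N) := QuotientGroup.isQuotientMap_mk N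
  rw [totallyDisconnectedSpace_iff_connectedComponent_singleton]
  intro q
  obtain ⟨a, rfl⟩ := QuotientGroup.mk_surjective q
  refine Subset.antisymm ?_ (singleton_subset_iff.2 mem_connectedComponent)
  intro q' hq'
  obtain ⟨b, rfl⟩ := QuotientGroup.mk_surjective q'
  have h1 := hq.isCoinducing.preimage_connectedComponent hfib a
  have h2 : b ∈ connectedComponent a := by rw [← h1]; exact hq'
  have h3 : a⁻¹ * b ∈ connectedComponent (1 : G) := by
    have h5 : Continuous fun x : G => a⁻¹ * x := continuous_const.mul continuous_id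
    have h4 := h5.image_connectedComponent_subset a ⟨b, h2, rfl⟩
    rwa [inv_mul_cancel] at h4
  rw [mem_singleton_iff, eq_comm, QuotientGroup.eq]
  exact (hmem _).2 h3

/-- **Main theorem.** -/
theorem tig_iff (G : Type) [Group G] [TopologicalSpace G] [IsTopologicalGroup G] [CompactSpace G]
      [T2Space G] :
      (∀ f : G → G,
          (Subgroup.closure (Set.range (fun x : G => f x * x * (f x)⁻¹))).topologicalClosure = ⊤) ↔
        ∃ N : Subgroup G, N.Normal ∧ IsClosed (N : Set G) ∧ IsConnected (N : Set G) ∧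
          (∀ a ∈ N, ∀ b ∈ N, a * b = b * a) ∧ TotallyDisconnectedSpace (G ⧸ N) := by
  constructor
  · intro h
    refine ⟨Subgroup.connectedComponentOfOne G, ⟨?_⟩, isClosed_connectedComponent,
      isConnected_connectedComponent, ?_, quot_td G _ rfl⟩
    · intro n hn x
      have h1 : Continuous fun y : G => x * y * x⁻¹ :=
        (continuous_const.mul continuous_id).mul continuous_const
      have h2 := h1.image_connectedComponent_subset 1 ⟨n, hn, rfl⟩
      have h3 : x * 1 * x⁻¹ = 1 := by group
      rw [h3] at h2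
      exact h2
    · intro a ha b hb
      by_contra hab
      obtain ⟨H, hH, hne, hcj⟩ := exists_proper (G := G) ha hb hab
      choose f hf using hcj
      apply hne
      rw [eq_top_iff, ← h f]
      refine Subgroup.topologicalClosure_minimal _ ?_ hH
      rw [Subgroup.closure_le]
      rintro _ ⟨x, rfl⟩
      exact hf x
  · rintro ⟨N, hN, hcl, -, hab, htd⟩ f
    refine abelian_by_profinite N hN hcl hab htd _ (Subgroup.isClosed_topologicalClosure _)
      fun x => ⟨f x, ?_⟩
    exact Subgroup.le_topologicalClosure _ (Subgroup.subset_closure ⟨x, rfl⟩)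

end Pool.Agent.H858T
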